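import Pool.Agent.Helper36_X1.Stmts2
import Pool.Agent.Helper99_BN.Bur
import Pool.Agent.Helper20_PP.Nls
import Pool.Agent.Helper18_X1.Upg
import Pool.Agent.Helper32_X1.Clo

/-!
# Squad X1, module LB1: every irreducible representation has a label
-/

open scoped BigOperators

noncomputable section

namespace Pool.Agent.PP.X1.H24

open Pool.Agent.Helper51_AWC Pool.Agent.Helper79_WRA Pool.Agent.PP

variable {ℓ : ℕ} {F : Type} [Field F] {G : Type} [Group G]

lemma B_le_PJ (R : RGD ℓ G) (J : Finset (Fin R.r)) : R.B ≤ R.PJ J :=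
  sup_le_sup_left (R.gp_mono Set.subset_union_left) R.T

/-- the element of `B` as an element of the product `T U` -/
lemma B_elt (R : RGD ℓ G) {g : G} (hg : g ∈ R.B) : ∃ t ∈ R.T, ∃ u ∈ R.U, g = t * u := by
  refine Subgroup.closure_induction (p := fun g _ => ∃ t ∈ R.T, ∃ u ∈ R.U, g = t * u)
    (k := (R.T : Set G) ∪ R.U) ?_ ?_ ?_ ?_ ?_
  · rintro x (hx | hx)
    · exact ⟨x, hx, 1, R.U.one_mem, (mul_one x).symm⟩
    · exact ⟨1, R.T.one_mem, x, hx, (one_mul x).symm⟩
  · exact ⟨1, R.T.one_mem, 1, R.U.one_mem, (mul_one 1).symm⟩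
  · rintro x y _ _ ⟨t, ht, u, hu, rfl⟩ ⟨t', ht', u', hu', rfl⟩
    refine ⟨t * t', R.T.mul_mem ht ht', (t'⁻¹ * u * t'⁻¹⁻¹) * u', R.U.mul_mem
      (R.T_gp R.pos_sub (R.T.inv_mem ht') hu) hu', ?_⟩
    group
  · rintro x _ ⟨t, ht, u, hu, rfl⟩
    refine ⟨t⁻¹, R.T.inv_mem ht, t * u⁻¹ * t⁻¹, R.T_gp R.pos_sub ht (R.U.inv_mem hu), ?_⟩
    group
  · rw [Subgroup.closure_union, Subgroup.closure_eq, Subgroup.closure_eq]
    exact hg

lemma U_norm (R : RGD ℓ G) {g x : G} (hg : g ∈ R.B) (hx : x ∈ R.U) : g * x * g⁻¹ ∈ R.U := by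
  obtain ⟨t, ht, u, hu, rfl⟩ := B_elt R hg
  have h1 := R.T_gp R.pos_sub ht (R.U.mul_mem (R.U.mul_mem hu hx) (R.U.inv_mem hu))
  have h2 : t * u * x * (t * u)⁻¹ = t * (u * x * u⁻¹) * t⁻¹ := by group
  rw [h2]
  exact h1

/-- `U` acts trivially in the irreducible representations of `B`. -/
lemma U_triv [Fact ℓ.Prime] (hF : GoodF ℓ F) [Finite G] (R : RGD ℓ G) {m : ℕ}
    (σ : R.B →* Matrix (Fin m) (Fin m) F) (hσ : IsIrr σ) {u : G} (hu : u ∈ R.U) :
    ro σ u = 1 := by
  rw [ro_mem σ (R.U_le_B hu)]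
  refine Pool.Agent.PP.H20.nls_triv hF.prime hF.char (R.U.subgroupOf R.B) ?_ ?_ σ hσ _
    (Subgroup.mem_subgroupOf.2 hu)
  · refine ⟨fun x hx g => ?_⟩
    rw [Subgroup.mem_subgroupOf] at hx ⊢
    exact U_norm R g.2 hx
  · have h1 : IsPGroup ℓ R.U :=
      Pool.Agent.PP.X1.H18.upg ℓ G R R.pos (Pool.Agent.PP.X1.H32.clo_pos R) (le_refl _)
    intro x
    obtain ⟨k, hk⟩ := h1 ⟨(x : R.B), Subgroup.mem_subgroupOf.1 x.2⟩
    refine ⟨k, ?_⟩
    apply Subtype.ext
    apply Subtype.ext
    have h2 := congrArg Subtype.val hk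
    simpa using h2

lemma mulVec_col {k m : ℕ} (M : Matrix (Fin k) (Fin k) F) (X : Matrix (Fin k) (Fin m) F)
    (j : Fin m) : M.mulVec (fun i => X i j) = fun i => (M * X) i j := by
  ext i
  rfl

/-- `X` as columns -/
lemma mul_eq_of_col {k m : ℕ} (M : Matrix (Fin k) (Fin k) F) (X Y : Matrix (Fin k) (Fin m) F)
    (h : ∀ j, M.mulVec (fun i => X i j) = fun i => Y i j) : M * X = Y := by
  ext i j
  have h1 := congrFun (h j) i
  rw [mulVec_col] at h1
  exact h1

theorem lb1 (hvui : VuiStmt) (haca : AcaStmt) : Lb1Stmt := by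
  classical
  intro ℓ _ F _ hF G _ _ R J
  have hclosed := hF.closed
  refine ⟨?_, ?_⟩
  · intro k ρ hρ
    obtain ⟨hne, -, hirr, -, -⟩ := hvui ℓ F hF G R J k ρ hρ
    obtain ⟨-, -, -, -, hT, -⟩ := haca ℓ F hF G R J k ρ
    set L := fx R.U ρ with hL
    set m := Module.finrank F L with hm
    let b : Module.Basis (Fin m) F L := Module.finBasis F L
    let X : Matrix (Fin k) (Fin m) F := fun i j => (b j : Fin k → F) i
    have hXc : ∀ c : Fin m → F, X.mulVec c = ((∑ j, c j • b j : L) : Fin k → F) := by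
      intro c
      ext i
      rw [Submodule.coe_sum, Finset.sum_apply]
      show ∑ j, X i j * c j = _
      refine Finset.sum_congr rfl fun j _ => ?_
      show (b j : Fin k → F) i * c j = c j * (b j : Fin k → F) i
      exact mul_comm _ _
    have hXL : ∀ c : Fin m → F, X.mulVec c ∈ L := by
      intro c
      rw [hXc]
      exact Submodule.coe_mem _
    have hXs : ∀ v ∈ L, ∃ c, v = X.mulVec c := by
      intro v hv
      refine ⟨fun j => b.repr ⟨v, hv⟩ j, ?_⟩
      rw [hXc, b.sum_repr]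
    have hXi : ∀ c, X.mulVec c = 0 → c = 0 := by
      intro c hc
      rw [hXc] at hc
      have h1 : (∑ j, c j • b j : L) = 0 := Subtype.ext hc
      have h2 := Fintype.linearIndependent_iff.1 b.linearIndependent c h1
      exact funext h2
    have hXinj : LinearMap.ker X.mulVecLin = ⊥ := by
      rw [LinearMap.ker_eq_bot']
      intro c hc
      exact hXi c hc
    obtain ⟨f, hf⟩ := LinearMap.exists_leftInverse_of_injective X.mulVecLin hXinj
    let Y : Matrix (Fin m) (Fin k) F := LinearMap.toMatrix' f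
    have hYX : Y * X = 1 := by
      have h1 : Matrix.toLin' (Y * X) = LinearMap.id := by
        rw [Matrix.toLin'_mul, show Matrix.toLin' Y = f from Matrix.toLin'_toMatrix' f]
        exact hf
      have h2 := congrArg LinearMap.toMatrix' h1
      rwa [LinearMap.toMatrix'_toLin', LinearMap.toMatrix'_id] at h2
    -- `B` stabilises `L`
    have hBL : ∀ g ∈ R.B, ∀ v ∈ L, (ro ρ g).mulVec v ∈ L := by
      intro g hg v hv
      obtain ⟨t, ht, u, hu, rfl⟩ := B_elt R hg
      rw [ro_mul ρ (B_le_PJ R J (R.T_le_B ht)) (B_le_PJ R J (R.U_le_B hu)),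
        ← Matrix.mulVec_mulVec, hv u hu]
      exact hT t ht v hv
    have hcol : ∀ j, (fun i => X i j) ∈ L := fun j => (b j).2
    have hker : ∀ M : Matrix (Fin k) (Fin m) F, (∀ j, (fun i => M i j) ∈ L) → X * (Y * M) = M := by
      intro M hM
      refine Matrix.ext_of_mulVec_single fun j => ?_
      obtain ⟨c, hc⟩ := hXs _ (hM j)
      have h1 : M.mulVec (Pi.single j 1) = X.mulVec c := by
        rw [← hc]
        ext i
        rw [Matrix.mulVec_single_one]
        rfl
      rw [← Matrix.mulVec_mulVec, ← Matrix.mulVec_mulVec, h1, Matrix.mulVec_mulVec c Y X, hYX,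
        Matrix.one_mulVec]
    have hρX : ∀ g ∈ R.B, X * (Y * (ro ρ g * X)) = ro ρ g * X := by
      intro g hg
      refine hker _ fun j => ?_
      rw [← mulVec_col]
      exact hBL g hg _ (hcol j)
    let σ : R.B →* Matrix (Fin m) (Fin m) F :=
      { toFun := fun g => Y * (ro ρ g * X)
        map_one' := by
          show Y * (ro ρ ((1 : R.B) : G) * X) = 1
          rw [Subgroup.coe_one, ro_one, Matrix.one_mul, hYX]
        map_mul' := by
          intro g h
          show Y * (ro ρ ((g * h : R.B) : G) * X) = Y * (ro ρ (g : G) * X) * (Y * (ro ρ (h : G) * X))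
          rw [Subgroup.coe_mul, ro_mul ρ (B_le_PJ R J g.2) (B_le_PJ R J h.2)]
          calc Y * (ro ρ (g : G) * ro ρ (h : G) * X)
              = Y * (ro ρ (g : G) * (ro ρ (h : G) * X)) := by rw [Matrix.mul_assoc (ro ρ (g : G))]
            _ = Y * (ro ρ (g : G) * (X * (Y * (ro ρ (h : G) * X)))) := by rw [hρX h h.2]
            _ = Y * (ro ρ (g : G) * X) * (Y * (ro ρ (h : G) * X)) := by
              simp only [Matrix.mul_assoc] }
    have hσX : ∀ g ∈ R.B, ro ρ g * X = X * ro σ g := by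
      intro g hg
      rw [ro_mem σ hg]
      exact (hρX g hg).symm
    refine ⟨m, σ, J.filter fun i => Ai R ρ i * X ≠ 0, hρ, ?_, Finset.filter_subset _ _, X, Y, hYX,
      hσX, hXs, ?_⟩
    · apply Pool.Agent.PP.BN.H99.irr_of_inv
      · rw [hm]
        have : Nontrivial L := Submodule.nontrivial_iff_ne_bot.2 hne
        exact Module.finrank_pos
      · intro W hW
        have h1 := hirr (W.map X.mulVecLin) ?_ ?_
        · rcases h1 with h1 | h1
          · left
            rw [eq_bot_iff]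
            intro c hc
            have h2 : X.mulVec c ∈ W.map X.mulVecLin := ⟨c, hc, rfl⟩
            rw [h1, Submodule.mem_bot] at h2
            exact (Submodule.mem_bot F).2 (hXi c h2)
          · right
            rw [eq_top_iff]
            intro c _
            have h2 : X.mulVec c ∈ W.map X.mulVecLin := by
              rw [h1]
              exact hXL c
            obtain ⟨c', hc', h3⟩ := h2
            have h4 : X.mulVec (c' - c) = 0 := by
              rw [Matrix.mulVec_sub, sub_eq_zero]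
              exact h3
            have h5 := hXi _ h4
            rw [sub_eq_zero] at h5
            rwa [← h5]
        · rintro _ ⟨c, _, rfl⟩
          exact hXL c
        · rintro t ht _ ⟨c, hc, rfl⟩
          refine ⟨(σ ⟨t, R.T_le_B ht⟩).mulVec c, hW _ c hc, ?_⟩
          show X.mulVec ((σ ⟨t, R.T_le_B ht⟩).mulVec c) = (ro ρ t).mulVec (X.mulVec c)
          rw [Matrix.mulVec_mulVec, Matrix.mulVec_mulVec, hσX t (R.T_le_B ht),
            ro_mem σ (R.T_le_B ht)]
    · intro i hi
      rw [Finset.mem_filter]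
      exact ⟨fun h => h.2, fun h => ⟨hi, h⟩⟩
  · rintro k m ρ σ K ⟨hρ, hσ, hKJ, X, Y, hYX, hσX, hXs, hK⟩
    obtain ⟨-, -, -, hA, -⟩ := hvui ℓ F hF G R J k ρ hρ
    have hcols : ∀ Z : Matrix (Fin k) (Fin m) F, (∀ b ∈ R.B, ro ρ b * Z = Z * ro σ b) →
        ∀ j, (fun i => Z i j) ∈ fx R.U ρ := by
      intro Z hZ j u hu
      rw [mulVec_col, hZ u (R.U_le_B hu), U_triv hF R σ hσ hu, Matrix.mul_one]
    refine ⟨?_, ?_⟩
    · intro i hi t ht
      have htB : t ∈ R.B := R.T_le_B ht.1
      rcases hA i (hKJ hi) with h1 | ⟨h1, -⟩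
      · exfalso
        apply (hK i (hKJ hi)).1 hi
        refine mul_eq_of_col _ _ _ fun j => ?_
        rw [h1 _ (hcols X hσX j)]
        rfl
      · have h2 : ro ρ t * X = X := mul_eq_of_col _ _ _ fun j => h1 t ht _ (hcols X hσX j)
        rw [hσX t htB] at h2
        have h3 : Y * (X * ro σ t) = Y * X := by rw [h2]
        rwa [← Matrix.mul_assoc, hYX, Matrix.one_mul] at h3
    · intro Z hZ i hi
      by_cases hiK : i ∈ K
      · rw [if_pos hiK]
        rcases hA i hi with h1 | ⟨-, h1⟩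
        · exfalso
          apply (hK i hi).1 hiK
          refine mul_eq_of_col _ _ _ fun j => ?_
          rw [h1 _ (hcols X hσX j)]
          rfl
        · refine mul_eq_of_col _ _ _ fun j => ?_
          rw [h1 _ (hcols Z hZ j)]
          rfl
      · rw [if_neg hiK]
        have h1 : Ai R ρ i * X = 0 := by
          by_contra h
          exact hiK ((hK i hi).2 h)
        refine mul_eq_of_col _ _ _ fun j => ?_
        obtain ⟨c, hc⟩ := hXs _ (hcols Z hZ j)
        rw [hc, Matrix.mulVec_mulVec, h1, Matrix.zero_mulVec]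
        rfl

end Pool.Agent.PP.X1.H24
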